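import Mathlib

set_option autoImplicit false

namespace Pool.Agent.Results.MP_a57f84_gt.NotOpenCompactImage

open Set Topology Filter

/-!
The space `Pt`. Let `I` be the uncountable set of binary sequences. The points are

* `br a`: the sequences `a` of elements of `I`;
* for every tree `p` of finite sequences over `I` without infinite branches, a compact piece `K p`
  consisting of the nodes `nd p s` (`s` is the root or a child of an element of `p`) and of the
  isolated points `iso p s m` (`s` in `p`, `m` a finite binary sequence).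

For a finite sequence `t` the clopen set `N t` consists of all branches through `t`, of all nodes
and isolated points at or below `t`, and, if `t` is the child of `s` in direction `x`, of the
isolated points `iso p s m` with `m` an initial piece of `x`. The pieces `K p` are compact, the
branch points have the sets `N t` as a neighbourhood base, and `Pt` is metacompact and
zero-dimensional. If `G` is a cozero set of a paracompact space `X` which contains the fibres of
all branch points and misses the fibres of all root nodes `nd p []`, then `W = f(G)` is open and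
`p = {t | N t` is not contained in `W}` is a tree without infinite branches. A locally finite
refinement argument shows that if all children of a node of `p` are in `W` then so is the node.
Hence the root of `p` is in `W`, a contradiction.
-/

/-- A space is metacompact if every open cover has a point-finite open refinement. -/
def Metacompact (Y : Type) [TopologicalSpace Y] : Prop :=
  ∀ U : Set (Set Y), (∀ u ∈ U, IsOpen u) → ⋃₀ U = Set.univ →
    ∃ V : Set (Set Y), (∀ v ∈ V, IsOpen v ∧ ∃ u ∈ U, v ⊆ u) ∧ ⋃₀ V = Set.univ ∧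
      ∀ y : Y, {v | v ∈ V ∧ y ∈ v}.Finite

/-- The reversed list of the first `k` values of `a`. -/
def rl {α : Type} (a : ℕ → α) : ℕ → List α
  | 0 => []
  | k + 1 => a k :: rl a k

lemma rl_length {α : Type} (a : ℕ → α) (k : ℕ) : (rl a k).length = k := by
  induction k with
  | zero => rfl
  | succ k ih => simp [rl, ih]

lemma suffix_rl {α : Type} (a : ℕ → α) (k : ℕ) (t : List α) :
    t <:+ rl a k ↔ t.length ≤ k ∧ t = rl a t.length := by
  induction k with
  | zero =>
    constructor
    · intro h
      have : t = [] := by simpa [rl] using h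
      subst this
      simp [rl]
    · rintro ⟨h1, h2⟩
      have : t.length = 0 := by omega
      rw [h2, this]
  | succ k ih =>
    rw [show rl a (k + 1) = a k :: rl a k from rfl, List.suffix_cons_iff, ih]
    constructor
    · rintro (h | ⟨h1, h2⟩)
      · have : t.length = k + 1 := by rw [h]; simp [rl_length]
        exact ⟨by omega, by rw [this]; exact h⟩
      · exact ⟨by omega, h2⟩
    · rintro ⟨h1, h2⟩
      rcases Nat.lt_or_ge k t.length with h | h
      · left
        have h3 : t.length = k + 1 := by omega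
        rw [h3] at h2
        exact h2
      · right
        exact ⟨h, h2⟩

lemma rl_inj {α : Type} (a b : ℕ → α) (k : ℕ) (h : rl a k = rl b k) :
    ∀ j < k, a j = b j := by
  induction k with
  | zero => intro j hj; omega
  | succ k ih =>
    intro j hj
    rw [show rl a (k + 1) = a k :: rl a k from rfl,
      show rl b (k + 1) = b k :: rl b k from rfl] at h
    rw [List.cons.injEq] at h
    rcases Nat.lt_or_ge j k with h1 | h1
    · exact ih h.2 j h1
    · have : j = k := by omega
      rw [this]
      exact h.1

/-- The index set of the branching: an uncountable set. -/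
abbrev I : Type := ℕ → Bool

lemma ad_finite (x y : I) (h : x ≠ y) :
    {m : List Bool | m = rl x m.length ∧ m = rl y m.length}.Finite := by
  obtain ⟨k, hk⟩ := Function.ne_iff.1 h
  apply (Set.finite_range (fun j : Fin (k + 1) => rl x j)).subset
  rintro m ⟨h1, h2⟩
  have h3 : m.length ≤ k := by
    by_contra hc
    exact hk (rl_inj x y m.length (h1.symm.trans h2) k (by omega))
  exact ⟨⟨m.length, by omega⟩, h1.symm⟩

/-- Trees over `I` without infinite branches (nodes are reversed lists). -/
structure Tr where
  /-- the set of nodes -/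
  c : Set (List I)
  /-- closed under removing the last entry -/
  down : ∀ (x : I) (s : List I), x :: s ∈ c → s ∈ c
  /-- no infinite branch -/
  wf : ∀ a : ℕ → I, ∃ k, rl a k ∉ c

lemma Tr.suf (p : Tr) {s t : List I} (h : s <:+ t) (ht : t ∈ p.c) : s ∈ p.c := by
  induction t with
  | nil =>
    have : s = [] := by simpa using h
    rwa [this]
  | cons x t ih =>
    rcases List.suffix_cons_iff.1 h with h | h
    · rwa [h]
    · exact ih h (p.down x t ht)

/-- Bar induction along a tree without infinite branches. -/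
lemma Tr.bar (p : Tr) (Q : List I → Prop) (h0 : ∀ s, s ∉ p.c → Q s)
    (h1 : ∀ s, s ∈ p.c → (∀ y, Q (y :: s)) → Q s) : Q [] := by
  by_contra hn
  have step : ∀ s : {s : List I // ¬ Q s}, ∃ y : I, ¬ Q (y :: s.1) := by
    intro s
    by_contra hc
    push Not at hc
    have hs : s.1 ∈ p.c := by
      by_contra hs
      exact s.2 (h0 _ hs)
    exact s.2 (h1 _ hs hc)
  choose g hg using step
  let F : ℕ → {s : List I // ¬ Q s} :=
    fun n => Nat.rec ⟨[], hn⟩ (fun _ s => ⟨g s :: s.1, hg s⟩) n
  have hF : ∀ n, (F n).1 = rl (fun n => g (F n)) n := by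
    intro n
    induction n with
    | zero => rfl
    | succ n ih =>
      change g (F n) :: (F n).1 = g (F n) :: rl (fun n => g (F n)) n
      rw [← ih]
  obtain ⟨k, hk⟩ := p.wf (fun n => g (F n))
  apply (F k).2
  apply h0
  rw [hF]
  exact hk

/-- The points of the space. -/
inductive Pt : Type
  | br (a : ℕ → I)
  | nd (p : Tr) (s : List I) (h : s = [] ∨ s.tail ∈ p.c)
  | iso (p : Tr) (s : List I) (h : s ∈ p.c) (m : List Bool)

/-- The set of points below the node `t`. -/
def N (t : List I) : Set Pt := {z | match z with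
  | .br a => t = rl a t.length
  | .nd _ s _ => t <:+ s
  | .iso _ s _ m => t <:+ s ∨ ∃ x, t = x :: s ∧ m = rl x m.length}

/-- The compact piece belonging to the tree `p`. -/
def K (p : Tr) : Set Pt := {z | match z with
  | .br _ => False
  | .nd q _ _ => q = p
  | .iso q _ _ _ => q = p}

/-- The singleton of an isolated point. -/
def Q (p : Tr) (s : List I) (m : List Bool) : Set Pt := {z | ∃ h, z = Pt.iso p s h m}

@[simp] lemma br_mem_N (t : List I) (a : ℕ → I) : Pt.br a ∈ N t ↔ t = rl a t.length := Iff.rfl
@[simp] lemma nd_mem_N (t : List I) (p : Tr) (s : List I) (h) : Pt.nd p s h ∈ N t ↔ t <:+ s :=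
  Iff.rfl
@[simp] lemma iso_mem_N (t : List I) (p : Tr) (s : List I) (h) (m : List Bool) :
    Pt.iso p s h m ∈ N t ↔ (t <:+ s ∨ ∃ x, t = x :: s ∧ m = rl x m.length) := Iff.rfl
@[simp] lemma br_mem_K (p : Tr) (a : ℕ → I) : Pt.br a ∈ K p ↔ False := Iff.rfl
@[simp] lemma nd_mem_K (q p : Tr) (s : List I) (h) : Pt.nd p s h ∈ K q ↔ p = q := Iff.rfl
@[simp] lemma iso_mem_K (q p : Tr) (s : List I) (h) (m : List Bool) :
    Pt.iso p s h m ∈ K q ↔ p = q := Iff.rfl

/-- Indices of the clopen sets which generate the topology. -/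
inductive Idx : Type
  | n (t : List I)
  | k (p : Tr)
  | q (p : Tr) (s : List I) (m : List Bool)

/-- The clopen sets which, with their complements, generate the topology. -/
def C : Idx → Set Pt
  | .n t => N t
  | .k p => K p
  | .q p s m => Q p s m

open Classical in
/-- The map which induces the topology. -/
noncomputable def code (z : Pt) (i : Idx) : Bool := decide (z ∈ C i)

lemma code_eq (z z' : Pt) (i : Idx) : code z i = code z' i ↔ (z ∈ C i ↔ z' ∈ C i) := by
  unfold code
  exact decide_eq_decide

noncomputable instance : TopologicalSpace Pt := TopologicalSpace.induced code inferInstance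

lemma C_clopen (i : Idx) : IsClopen (C i) := by
  have h : C i = code ⁻¹' ((fun f : Idx → Bool => f i) ⁻¹' {true}) := by
    ext z
    simp [code]
  rw [h]
  exact ((isClopen_discrete {true}).preimage (continuous_apply i)).preimage
    continuous_induced_dom

lemma N_clopen (t : List I) : IsClopen (N t) := C_clopen (.n t)
lemma K_clopen (p : Tr) : IsClopen (K p) := C_clopen (.k p)
lemma Q_clopen (p : Tr) (s : List I) (m : List Bool) : IsClopen (Q p s m) := C_clopen (.q p s m)

lemma nhd (O : Set Pt) (hO : IsOpen O) (z : Pt) (hz : z ∈ O) :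
    ∃ F : Finset Idx, ∀ z', (∀ i ∈ F, (z' ∈ C i ↔ z ∈ C i)) → z' ∈ O := by
  obtain ⟨V, hV, rfl⟩ := isOpen_induced_iff.1 hO
  obtain ⟨F, u, hu, hs⟩ := isOpen_pi_iff.1 hV (code z) hz
  refine ⟨F, fun z' h => hs ?_⟩
  intro i hi
  have : code z' i = code z i := (code_eq z' z i).2 (h i hi)
  rw [this]
  exact (hu i hi).2

lemma N_anti {t s : List I} (h : t <:+ s) : N s ⊆ N t := by
  intro z hz
  cases z with
  | br a =>
    rw [br_mem_N] at hz ⊢
    rw [hz] at h
    exact ((suffix_rl a _ t).1 h).2
  | nd p u hu => exact h.trans hz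
  | iso p u hu m =>
    rcases hz with hz | ⟨x, hx, hm⟩
    · exact Or.inl (h.trans hz)
    · rw [hx] at h
      rcases List.suffix_cons_iff.1 h with h | h
      · exact Or.inr ⟨x, h, hm⟩
      · exact Or.inl h

lemma suf_comp {α : Type} {s t u : List α} (hs : s <:+ u) (ht : t <:+ u) : s <:+ t ∨ t <:+ s := by
  rcases le_total s.length t.length with h | h
  · exact Or.inl (List.suffix_of_suffix_length_le hs ht h)
  · exact Or.inr (List.suffix_of_suffix_length_le ht hs h)

lemma N_inter {t s : List I} {z : Pt} (hs : z ∈ N s) (ht : z ∈ N t) :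
    s <:+ t ∨ t <:+ s ∨ ∃ (x y : I) (p : Tr) (u : List I) (h : u ∈ p.c) (m : List Bool),
      x ≠ y ∧ s = x :: u ∧ t = y :: u ∧ z = Pt.iso p u h m ∧ m = rl x m.length ∧
        m = rl y m.length := by
  cases z with
  | br a =>
    rw [br_mem_N] at hs ht
    rcases le_total s.length t.length with h | h
    · left
      rw [ht]
      exact (suffix_rl a _ s).2 ⟨h, hs⟩
    · right; left
      rw [hs]
      exact (suffix_rl a _ t).2 ⟨h, ht⟩
  | nd p u hu =>
    rcases suf_comp hs ht with h | h
    · exact Or.inl h
    · exact Or.inr (Or.inl h)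
  | iso p u hu m =>
    rcases hs with hs | ⟨x, hx, hm⟩
    · rcases ht with ht | ⟨y, hy, hm'⟩
      · rcases suf_comp hs ht with h | h
        · exact Or.inl h
        · exact Or.inr (Or.inl h)
      · left
        rw [hy]
        exact List.suffix_cons_iff.2 (Or.inr hs)
    · rcases ht with ht | ⟨y, hy, hm'⟩
      · right; left
        rw [hx]
        exact List.suffix_cons_iff.2 (Or.inr ht)
      · by_cases hxy : x = y
        · left
          rw [hx, hy, hxy]
        · exact Or.inr (Or.inr ⟨x, y, p, u, hu, m, hxy, hx, hy, rfl, hm, hm'⟩)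

/-- Neighbourhoods of a branch point. -/
lemma nhd_br (O : Set Pt) (hO : IsOpen O) (a : ℕ → I) (ha : Pt.br a ∈ O) :
    ∃ k, N (rl a k) ⊆ O := by
  obtain ⟨F, hF⟩ := nhd O hO _ ha
  have key : ∀ i : Idx, ∀ᶠ k in atTop, ∀ z ∈ N (rl a k), (z ∈ C i ↔ Pt.br a ∈ C i) := by
    intro i
    have kpart : ∀ p : Tr, ∀ᶠ k in atTop, ∀ z ∈ N (rl a k), z ∉ K p := by
      intro p
      obtain ⟨k, hk⟩ := p.wf a
      filter_upwards [eventually_ge_atTop (k + 1)] with j hj z hz hzK
      have hz2 : z ∈ N (rl a (k + 1)) := by
        refine N_anti ?_ hz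
        rw [suffix_rl, rl_length]
        exact ⟨hj, rfl⟩
      cases z with
      | br b => exact hzK
      | nd q u hu =>
        have hqp : q = p := hzK
        subst hqp
        rw [nd_mem_N, show rl a (k + 1) = a k :: rl a k from rfl] at hz2
        cases u with
        | nil => simp at hz2
        | cons y u =>
          have hu' : u ∈ q.c := by
            rcases hu with hu | hu
            · simp at hu
            · exact hu
          apply hk
          rcases List.suffix_cons_iff.1 hz2 with h | h
          · rw [List.cons.injEq] at h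
            rw [h.2]
            exact hu'
          · exact q.down (a k) _ (q.suf h hu')
      | iso q u hu m =>
        have hqp : q = p := hzK
        subst hqp
        rw [iso_mem_N, show rl a (k + 1) = a k :: rl a k from rfl] at hz2
        apply hk
        rcases hz2 with h | ⟨x, hx, _⟩
        · exact q.down (a k) _ (q.suf h hu)
        · rw [List.cons.injEq] at hx
          rw [hx.2]
          exact hu
    cases i with
    | n t =>
      by_cases ht : Pt.br a ∈ N t
      · filter_upwards [eventually_ge_atTop t.length] with k hk z hz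
        have : z ∈ N t := by
          refine N_anti ?_ hz
          rw [suffix_rl]
          exact ⟨hk, ht⟩
        exact ⟨fun _ => ht, fun _ => this⟩
      · filter_upwards [eventually_ge_atTop (t.length + 1)] with k hk z hz
        refine ⟨fun hzt => absurd ?_ ht, fun h => absurd h ht⟩
        rcases N_inter hz hzt with h | h | ⟨x, y, p, u, hu, m, hxy, h1, h2, -⟩
        · have := h.length_le
          rw [rl_length] at this
          omega
        · rw [suffix_rl] at h
          exact h.2
        · have h3 := congrArg List.length h1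
          have h4 := congrArg List.length h2
          rw [rl_length] at h3
          simp at h3 h4
          omega
    | k p =>
      filter_upwards [kpart p] with k hk z hz
      exact ⟨fun h => absurd h (hk z hz), fun h => absurd h id⟩
    | q p s m =>
      filter_upwards [kpart p] with k hk z hz
      constructor
      · rintro ⟨h, rfl⟩
        exact absurd rfl (hk _ hz)
      · rintro ⟨h, h'⟩
        exact absurd h' (by simp)
  have hall : ∀ᶠ k in atTop, ∀ i ∈ F, ∀ z ∈ N (rl a k), (z ∈ C i ↔ Pt.br a ∈ C i) :=
    (Filter.eventually_all_finset F).2 fun i _ => key i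
  obtain ⟨k, hk⟩ := hall.exists
  exact ⟨k, fun z hz => hF z fun i hi => hk i hi z hz⟩

/-- Neighbourhoods of a node of a compact piece. -/
lemma nhd_nd (O : Set Pt) (hO : IsOpen O) (p : Tr) (s : List I) (h : s = [] ∨ s.tail ∈ p.c)
    (hs : Pt.nd p s h ∈ O) :
    ∃ (F : Set I) (M : Set Pt), F.Finite ∧ M.Finite ∧
      ∀ z ∈ N s ∩ K p, (∀ y ∈ F, z ∉ N (y :: s)) → z ∉ M → z ∈ O := by
  obtain ⟨G, hG⟩ := nhd O hO _ hs
  have key : ∀ i : Idx, ∃ (F : Set I) (M : Set Pt), F.Finite ∧ M.Finite ∧
      ∀ z ∈ N s ∩ K p, (∀ y ∈ F, z ∉ N (y :: s)) → z ∉ M → (z ∈ C i ↔ Pt.nd p s h ∈ C i) := by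
    intro i
    cases i with
    | n t =>
      by_cases hts : t <:+ s
      · refine ⟨∅, ∅, Set.finite_empty, Set.finite_empty, fun z hz _ _ => ?_⟩
        exact ⟨fun _ => hts, fun _ => N_anti hts hz.1⟩
      · by_cases hst : s <:+ t
        · obtain ⟨y, hy⟩ : ∃ y, y :: s <:+ t := by
            obtain ⟨l, hl⟩ := hst
            rcases List.eq_nil_or_concat l with rfl | ⟨l', y, rfl⟩
            · exact absurd (by rw [← hl]; simp) hts
            · refine ⟨y, l', ?_⟩
              rw [← hl]
              simp
          refine ⟨{y}, ∅, Set.finite_singleton _, Set.finite_empty, fun z hz hF _ => ?_⟩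
          refine ⟨fun hzt => absurd (N_anti hy hzt) (hF y rfl), fun h' => absurd h' hts⟩
        · by_cases hsib : ∃ (x y : I) (u : List I), x ≠ y ∧ s = x :: u ∧ t = y :: u
          · obtain ⟨x, y, u, hxy, hsx, hty⟩ := hsib
            refine ⟨∅, {z | ∃ hu : u ∈ p.c, ∃ m : List Bool, (m = rl x m.length ∧
              m = rl y m.length) ∧ z = Pt.iso p u hu m}, Set.finite_empty, ?_, ?_⟩
            · by_cases hu : u ∈ p.c
              · apply ((ad_finite x y hxy).image (fun m => Pt.iso p u hu m)).subset
                rintro z ⟨_, m, hm, rfl⟩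
                exact ⟨m, hm, rfl⟩
              · apply Set.finite_empty.subset
                rintro z ⟨hu', _⟩
                exact absurd hu' hu
            · intro z hz _ hM
              refine ⟨fun hzt => absurd ?_ hM, fun h' => absurd h' hts⟩
              rcases N_inter hz.1 hzt with h' | h' | ⟨x', y', p', u', hu', m, hxy', h1, h2, h3, h4, h5⟩
              · exact absurd h' hst
              · exact absurd h' hts
              · have hp : p' = p := by
                  have := hz.2
                  rw [h3] at this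
                  exact this
                subst hp
                rw [hsx, List.cons.injEq] at h1
                rw [hty, List.cons.injEq] at h2
                obtain ⟨rfl, rfl⟩ := h1
                obtain ⟨rfl, -⟩ := h2
                exact ⟨hu', m, ⟨h4, h5⟩, h3⟩
          · refine ⟨∅, ∅, Set.finite_empty, Set.finite_empty, fun z hz _ _ => ?_⟩
            refine ⟨fun hzt => absurd ?_ hsib, fun h' => absurd h' hts⟩
            rcases N_inter hz.1 hzt with h' | h' | ⟨x', y', p', u', hu', m, hxy', h1, h2, h3, h4, h5⟩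
            · exact absurd h' hst
            · exact absurd h' hts
            · exact ⟨x', y', u', hxy', h1, h2⟩
    | k q =>
      refine ⟨∅, ∅, Set.finite_empty, Set.finite_empty, fun z hz _ _ => ?_⟩
      have hzp := hz.2
      cases z with
      | br b => exact absurd hzp id
      | nd q' u hu =>
        have : q' = p := hzp
        subst this
        exact Iff.rfl
      | iso q' u hu m =>
        have : q' = p := hzp
        subst this
        exact Iff.rfl
    | q p' s' m' =>
      refine ⟨∅, Q p' s' m', Set.finite_empty, ?_, fun z _ _ hM => ?_⟩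
      · apply Set.Subsingleton.finite
        rintro z ⟨h1, rfl⟩ z' ⟨h2, rfl⟩
        rfl
      · refine ⟨fun hz => absurd hz hM, ?_⟩
        rintro ⟨h1, h2⟩
        exact absurd h2 (by simp)
  choose F M hF hM hFM using key
  refine ⟨⋃ i ∈ G, F i, ⋃ i ∈ G, M i, G.finite_toSet.biUnion fun i _ => hF i,
    G.finite_toSet.biUnion fun i _ => hM i, fun z hz h1 h2 => ?_⟩
  apply hG
  intro i hi
  apply hFM i z hz
  · intro y hy
    exact h1 y (Set.mem_biUnion hi hy)
  · intro h3
    exact h2 (Set.mem_biUnion hi h3)

lemma leaf (p : Tr) (s : List I) (hs : s ∉ p.c) (y : I) (z : Pt) (hz : z ∈ K p) :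
    z ∉ N (y :: s) := by
  intro hz2
  cases z with
  | br b => exact hz
  | nd q u hu =>
    have hqp : q = p := hz
    subst hqp
    rw [nd_mem_N] at hz2
    cases u with
    | nil => simp at hz2
    | cons x u =>
      have hu' : u ∈ q.c := by
        rcases hu with hu | hu
        · simp at hu
        · exact hu
      apply hs
      rcases List.suffix_cons_iff.1 hz2 with h | h
      · rw [List.cons.injEq] at h
        rw [h.2]
        exact hu'
      · exact q.down y _ (q.suf h hu')
  | iso q u hu m =>
    have hqp : q = p := hz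
    subst hqp
    rw [iso_mem_N] at hz2
    apply hs
    rcases hz2 with h | ⟨x, hx, _⟩
    · exact q.down y _ (q.suf h hu)
    · rw [List.cons.injEq] at hx
      rw [hx.2]
      exact hu

/-- The pieces are compact: every open cover has a finite subcover of the piece. -/
lemma K_cover (U : Set (Set Pt)) (hU : ∀ u ∈ U, IsOpen u) (hc : ⋃₀ U = Set.univ) (p : Tr) :
    ∃ V : Set (Set Pt), V ⊆ U ∧ V.Finite ∧ K p ⊆ ⋃₀ V := by
  have hcov : ∀ z : Pt, ∃ u ∈ U, z ∈ u := by
    intro z
    have : z ∈ ⋃₀ U := by rw [hc]; trivial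
    exact this
  have main : ∃ V : Set (Set Pt), V ⊆ U ∧ V.Finite ∧ N [] ∩ K p ⊆ ⋃₀ V := by
    have step : ∀ s : List I, (∀ y, (y :: s = [] ∨ (y :: s).tail ∈ p.c) →
        ∃ V : Set (Set Pt), V ⊆ U ∧ V.Finite ∧ N (y :: s) ∩ K p ⊆ ⋃₀ V) →
        (s = [] ∨ s.tail ∈ p.c) →
        ∃ V : Set (Set Pt), V ⊆ U ∧ V.Finite ∧ N s ∩ K p ⊆ ⋃₀ V := by
      intro s ih hs
      obtain ⟨u, huU, hu⟩ := hcov (Pt.nd p s hs)
      obtain ⟨F, M, hF, hM, hFM⟩ := nhd_nd u (hU u huU) p s hs hu
      have hchild : ∀ y, ∃ V : Set (Set Pt), V ⊆ U ∧ V.Finite ∧ N (y :: s) ∩ K p ⊆ ⋃₀ V := by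
        intro y
        by_cases hsp : s ∈ p.c
        · exact ih y (Or.inr hsp)
        · refine ⟨∅, Set.empty_subset _, Set.finite_empty, ?_⟩
          rintro z ⟨h1, h2⟩
          exact absurd h1 (leaf p s hsp y z h2)
      choose V hVU hVf hVc using hchild
      choose w hwU hw using hcov
      refine ⟨{u} ∪ (⋃ y ∈ F, V y) ∪ w '' M, ?_, ?_, ?_⟩
      · refine Set.union_subset (Set.union_subset ?_ ?_) ?_
        · exact Set.singleton_subset_iff.2 huU
        · exact Set.iUnion₂_subset fun y _ => hVU y
        · rintro _ ⟨z, _, rfl⟩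
          exact hwU z
      · exact ((Set.finite_singleton u).union (hF.biUnion fun y _ => hVf y)).union (hM.image w)
      · intro z hz
        by_cases h1 : ∃ y ∈ F, z ∈ N (y :: s)
        · obtain ⟨y, hyF, hy⟩ := h1
          obtain ⟨v, hv, hzv⟩ := hVc y ⟨hy, hz.2⟩
          exact ⟨v, Or.inl (Or.inr (Set.mem_biUnion hyF hv)), hzv⟩
        · push Not at h1
          by_cases h2 : z ∈ M
          · exact ⟨w z, Or.inr ⟨z, h2, rfl⟩, hw z⟩
          · exact ⟨u, Or.inl (Or.inl rfl), hFM z hz h1 h2⟩
    have := p.bar (fun s => (s = [] ∨ s.tail ∈ p.c) →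
      ∃ V : Set (Set Pt), V ⊆ U ∧ V.Finite ∧ N s ∩ K p ⊆ ⋃₀ V) ?_ ?_
    · exact this (Or.inl rfl)
    · intro s hs hs'
      refine step s ?_ hs'
      intro y hy
      rcases hy with hy | hy
      · simp at hy
      · exact absurd hy hs
    · intro s hs ih hs'
      exact step s ih hs'
  obtain ⟨V, h1, h2, h3⟩ := main
  refine ⟨V, h1, h2, fun z hz => h3 ⟨?_, hz⟩⟩
  cases z with
  | br b => exact absurd hz id
  | nd q u hu => exact List.nil_suffix
  | iso q u hu m => exact Or.inl List.nil_suffix

lemma metacompact_Pt : Metacompact Pt := by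
  intro U hU hc
  have hK := K_cover U hU hc
  choose V hVU hVf hVc using hK
  let B : Set (List I) := {t | (∃ u ∈ U, N t ⊆ u) ∧
    ∀ s, s <:+ t → (∃ u ∈ U, N s ⊆ u) → s = t}
  let N' : List I → Set Pt := fun t => ⋃ y : I, N (y :: t)
  have hN' : ∀ t, N' t ⊆ N t := by
    intro t
    exact Set.iUnion_subset fun y => N_anti (List.suffix_cons y t)
  have huniq : ∀ t ∈ B, ∀ t' ∈ B, ∀ z, z ∈ N' t → z ∈ N' t' → t = t' := by
    intro t ht t' ht' z hz hz'
    obtain ⟨y, hy⟩ := Set.mem_iUnion.1 hz
    obtain ⟨y', hy'⟩ := Set.mem_iUnion.1 hz'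
    rcases N_inter hy hy' with h | h | ⟨x1, x2, p, u, hu, m, _, h1, h2, _⟩
    · have h3 : t <:+ t' := by
        rcases List.suffix_cons_iff.1 h with h | h
        · rw [List.cons.injEq] at h
          rw [h.2]
        · exact (List.suffix_cons y t).trans h
      exact ht'.2 t h3 ht.1
    · have h3 : t' <:+ t := by
        rcases List.suffix_cons_iff.1 h with h | h
        · rw [List.cons.injEq] at h
          rw [h.2]
        · exact (List.suffix_cons y' t').trans h
      exact (ht.2 t' h3 ht'.1).symm
    · rw [List.cons.injEq] at h1 h2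
      rw [h1.2, h2.2]
  refine ⟨N' '' B ∪ ⋃ p : Tr, (fun v => v ∩ K p) '' V p, ?_, ?_, ?_⟩
  · rintro v (⟨t, ht, rfl⟩ | hv)
    · refine ⟨isOpen_iUnion fun y => (N_clopen _).isOpen, ?_⟩
      obtain ⟨u, hu, htu⟩ := ht.1
      exact ⟨u, hu, (hN' t).trans htu⟩
    · obtain ⟨p, hp⟩ := Set.mem_iUnion.1 hv
      obtain ⟨w, hw, rfl⟩ := hp
      exact ⟨(hU w (hVU p hw)).inter (K_clopen p).isOpen, w, hVU p hw, Set.inter_subset_left⟩
  · rw [Set.eq_univ_iff_forall]
    intro z
    have hp : ∀ p : Tr, z ∈ K p → z ∈ ⋃₀ (N' '' B ∪ ⋃ p : Tr, (fun v => v ∩ K p) '' V p) := by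
      intro p hz
      obtain ⟨v, hv, hzv⟩ := hVc p hz
      exact ⟨v ∩ K p, Or.inr (Set.mem_iUnion.2 ⟨p, v, hv, rfl⟩), hzv, hz⟩
    cases z with
    | br a =>
      have hex : ∃ k, ∃ u ∈ U, N (rl a k) ⊆ u := by
        have : Pt.br a ∈ ⋃₀ U := by rw [hc]; trivial
        obtain ⟨u, hu, hau⟩ := this
        obtain ⟨k, hk⟩ := nhd_br u (hU u hu) a hau
        exact ⟨k, u, hu, hk⟩
      classical
      let k := Nat.find hex
      have hk : ∃ u ∈ U, N (rl a k) ⊆ u := Nat.find_spec hex
      refine ⟨N' (rl a k), Or.inl ⟨rl a k, ⟨hk, ?_⟩, rfl⟩, ?_⟩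
      · intro s hs hs2
        rw [suffix_rl] at hs
        have h2 : k ≤ s.length := by
          apply Nat.find_min' hex
          rw [← hs.2]
          exact hs2
        have h3 : s.length = k := le_antisymm hs.1 h2
        rw [← h3]
        exact hs.2
      · refine Set.mem_iUnion.2 ⟨a k, ?_⟩
        rw [br_mem_N]
        simp only [List.length_cons, rl_length]
        rfl
    | nd q u hu => exact hp q rfl
    | iso q u hu m => exact hp q rfl
  · intro z
    have h1 : {v | v ∈ N' '' B ∧ z ∈ v}.Finite := by
      apply Set.Subsingleton.finite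
      rintro _ ⟨⟨t, ht, rfl⟩, hz⟩ _ ⟨⟨t', ht', rfl⟩, hz'⟩
      rw [huniq t ht t' ht' z hz hz']
    have h2 : {v | v ∈ (⋃ p : Tr, (fun v => v ∩ K p) '' V p) ∧ z ∈ v}.Finite := by
      have hsub : ∀ q : Tr, z ∈ K q →
          {v | v ∈ (⋃ p : Tr, (fun v => v ∩ K p) '' V p) ∧ z ∈ v}.Finite := by
        intro q hq
        apply ((hVf q).image (fun v => v ∩ K q)).subset
        rintro v ⟨hv, hz⟩
        obtain ⟨p, w, hw, rfl⟩ := Set.mem_iUnion.1 hv
        have hpq : p = q := by
          have h3 := hz.2
          cases z with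
          | br b => exact absurd h3 id
          | nd q' u hu => exact h3.symm.trans hq
          | iso q' u hu m => exact h3.symm.trans hq
        subst hpq
        exact ⟨w, hw, rfl⟩
      cases z with
      | br a =>
        apply Set.finite_empty.subset
        rintro v ⟨hv, hz⟩
        obtain ⟨p, w, hw, rfl⟩ := Set.mem_iUnion.1 hv
        exact absurd hz.2 id
      | nd q u hu => exact hsub q rfl
      | iso q u hu m => exact hsub q rfl
    apply (h1.union h2).subset
    rintro v ⟨hv | hv, hz⟩
    · exact Or.inl ⟨hv, hz⟩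
    · exact Or.inr ⟨hv, hz⟩

lemma code_injective : Function.Injective code := by
  intro z z' h
  have hC : ∀ i, (z ∈ C i ↔ z' ∈ C i) := fun i => (code_eq z z' i).1 (congrFun h i)
  have hN : ∀ t, (z ∈ N t ↔ z' ∈ N t) := fun t => hC (.n t)
  have hK : ∀ p, (z ∈ K p ↔ z' ∈ K p) := fun p => hC (.k p)
  have hQ : ∀ p s m, (z ∈ Q p s m ↔ z' ∈ Q p s m) := fun p s m => hC (.q p s m)
  cases z with
  | br a =>
    cases z' with
    | br b =>
      congr 1
      funext k
      have h1 := (hN (rl a (k + 1))).1 (by rw [br_mem_N, rl_length])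
      rw [br_mem_N, rl_length] at h1
      exact rl_inj a b (k + 1) h1 k (Nat.lt_succ_self k)
    | nd q u hu => exact absurd ((hK q).2 rfl) id
    | iso q u hu m => exact absurd ((hK q).2 rfl) id
  | nd p s hs =>
    cases z' with
    | br b => exact absurd ((hK p).1 rfl) id
    | nd q u hu =>
      have h1 : q = p := (hK p).1 rfl
      subst h1
      have h2 : s <:+ u := (hN s).1 (List.suffix_refl s)
      have h3 : u <:+ s := (hN u).2 (List.suffix_refl u)
      have h4 : s = u := h2.eq_of_length_le h3.length_le
      subst h4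
      rfl
    | iso q u hu m =>
      obtain ⟨h1, h2⟩ := (hQ q u m).2 ⟨hu, rfl⟩
      exact absurd h2 (by simp)
  | iso p s hs m =>
    obtain ⟨h1, h2⟩ := (hQ p s m).1 ⟨hs, rfl⟩
    exact h2.symm

instance : T35Space Pt := by
  have h : IsEmbedding code := ⟨⟨rfl⟩, code_injective⟩
  exact h.t35Space

/-- The set of isolated points is open. -/
lemma isOpen_isos : IsOpen {z : Pt | ∃ p s h m, z = Pt.iso p s h m} := by
  have : {z : Pt | ∃ p s h m, z = Pt.iso p s h m} = ⋃ (p : Tr) (s : List I) (m : List Bool),
      Q p s m := by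
    ext z
    simp only [Set.mem_ofPred_eq, Set.mem_iUnion]
    constructor
    · rintro ⟨p, s, h, m, rfl⟩
      exact ⟨p, s, m, h, rfl⟩
    · rintro ⟨p, s, m, h, rfl⟩
      exact ⟨p, s, h, m, rfl⟩
  rw [this]
  exact isOpen_iUnion fun p => isOpen_iUnion fun s => isOpen_iUnion fun m => (Q_clopen p s m).isOpen

/-- The isolated points along `x` at the node `s` converge to the node `x :: s`. -/
lemma exists_iso (p : Tr) (s : List I) (hs : s ∈ p.c) (x : I) (O : Set Pt) (hO : IsOpen O)
    (h : Pt.nd p (x :: s) (Or.inr hs) ∈ O) : ∃ m, Pt.iso p s hs m ∈ O := by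
  obtain ⟨F, hF⟩ := nhd O hO _ h
  have key : ∀ i : Idx, ∀ᶠ k in atTop,
      (Pt.iso p s hs (rl x k) ∈ C i ↔ Pt.nd p (x :: s) (Or.inr hs) ∈ C i) := by
    intro i
    cases i with
    | n t =>
      change ∀ᶠ k in atTop, ((t <:+ s ∨ ∃ y, t = y :: s ∧ rl x k = rl y (rl x k).length) ↔
        t <:+ x :: s)
      by_cases h1 : t <:+ s
      · exact Filter.Eventually.of_forall fun k =>
          ⟨fun _ => h1.trans (List.suffix_cons x s), fun _ => Or.inl h1⟩
      · by_cases h2 : ∃ y, t = y :: s
        · obtain ⟨y, rfl⟩ := h2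
          by_cases hxy : y = x
          · subst hxy
            refine Filter.Eventually.of_forall fun k => ⟨fun _ => List.suffix_refl _, fun _ => ?_⟩
            exact Or.inr ⟨y, rfl, by rw [rl_length]⟩
          · obtain ⟨j, hj⟩ := Function.ne_iff.1 hxy
            filter_upwards [eventually_ge_atTop (j + 1)] with k hk
            constructor
            · rintro (h3 | ⟨y', h3, h4⟩)
              · exact absurd h3 h1
              · rw [List.cons.injEq] at h3
                obtain ⟨rfl, -⟩ := h3
                rw [rl_length] at h4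
                exact absurd (rl_inj x y k h4 j (by omega)).symm hj
            · intro h3
              rcases List.suffix_cons_iff.1 h3 with h3 | h3
              · rw [List.cons.injEq] at h3
                exact absurd h3.1 hxy
              · exact absurd h3 h1
        · refine Filter.Eventually.of_forall fun k => ⟨?_, ?_⟩
          · rintro (h3 | ⟨y, h3, -⟩)
            · exact absurd h3 h1
            · exact absurd ⟨y, h3⟩ h2
          · intro h3
            rcases List.suffix_cons_iff.1 h3 with h3 | h3
            · exact absurd ⟨x, h3⟩ h2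
            · exact absurd h3 h1
    | k q => exact Filter.Eventually.of_forall fun k => Iff.rfl
    | q p' s' m' =>
      filter_upwards [eventually_ge_atTop (m'.length + 1)] with k hk
      constructor
      · rintro ⟨h1, h2⟩
        exfalso
        injection h2 with _ _ h3
        have := congrArg List.length h3
        rw [rl_length] at this
        omega
      · rintro ⟨h1, h2⟩
        exact absurd h2 (by simp)
  have hall := (Filter.eventually_all_finset F).2 fun i _ => key i
  obtain ⟨k, hk⟩ := hall.exists
  exact ⟨rl x k, hF _ hk⟩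

lemma uncountable_I : Uncountable I := by
  rw [← Cardinal.aleph0_lt_mk_iff]
  simp [I]
  exact Cardinal.cantor _

/-- The propagation step. -/
lemma step {X : Type*} [TopologicalSpace X] [T2Space X] [ParacompactSpace X] (f : X → Pt)
    (hf : Continuous f) (hopen : IsOpenMap f) (hcpt : ∀ y, IsCompact (f ⁻¹' {y}))
    (E : ℕ → Set X) (hE : ∀ n, IsClosed (E n)) (p : Tr) (s : List I) (hs : s ∈ p.c)
    (hs' : s = [] ∨ s.tail ∈ p.c)
    (h : ∀ x, Pt.nd p (x :: s) (Or.inr hs) ∈ f '' (⋃ n, E n)) :
    Pt.nd p s hs' ∈ f '' (⋃ n, E n) := by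
  by_contra hn
  choose ξ hξ hfξ using h
  have hξ' : ∀ x, ∃ n, ξ x ∈ E n := fun x => Set.mem_iUnion.1 (hξ x)
  choose ν hν using hξ'
  let O : Set Pt := (K p)ᶜ ∪ (N s)ᶜ ∪ {z : Pt | ∃ p s h m, z = Pt.iso p s h m}
  have hO : IsOpen O :=
    ((K_clopen p).compl.isOpen.union (N_clopen s).compl.isOpen).union isOpen_isos
  have heO : ∀ x, Pt.nd p (x :: s) (Or.inr hs) ∉ O := by
    rintro x ((h1 | h1) | ⟨_, _, _, _, h1⟩)
    · exact h1 rfl
    · exact h1 (List.suffix_cons x s)
    · exact absurd h1 (by simp)
  let u : Option I → Set X := fun i => match i with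
    | none => f ⁻¹' O
    | some x => f ⁻¹' (N (x :: s))
  have huo : ∀ i, IsOpen (u i) := by
    intro i
    cases i with
    | none => exact hO.preimage hf
    | some x => exact (N_clopen _).isOpen.preimage hf
  have hcov : ∀ n, E n ⊆ ⋃ i, u i := by
    intro n x hx
    have hne : f x ≠ Pt.nd p s hs' := by
      intro he
      exact hn ⟨x, Set.mem_iUnion.2 ⟨n, hx⟩, he⟩
    by_cases hxO : f x ∈ O
    · exact Set.mem_iUnion.2 ⟨none, hxO⟩
    · have h1 : f x ∈ K p := by
        by_contra hc
        exact hxO (Or.inl (Or.inl hc))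
      have h2 : f x ∈ N s := by
        by_contra hc
        exact hxO (Or.inl (Or.inr hc))
      have h3 : ¬ ∃ p s h m, f x = Pt.iso p s h m := fun hc => hxO (Or.inr hc)
      have h4 : ∃ y, f x ∈ N (y :: s) := by
        generalize f x = z at hne h1 h2 h3
        cases z with
        | br b => exact absurd h1 id
        | iso q t ht m => exact absurd ⟨q, t, ht, m, rfl⟩ h3
        | nd q t ht =>
          have hqp : q = p := h1
          subst hqp
          rw [nd_mem_N] at h2
          obtain ⟨l, hl⟩ := h2
          rcases List.eq_nil_or_concat l with rfl | ⟨l', y, rfl⟩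
          · exfalso
            apply hne
            have : s = t := by simpa using hl
            subst this
            rfl
          · refine ⟨y, l', ?_⟩
            rw [← hl]
            simp
      obtain ⟨y, hy⟩ := h4
      exact Set.mem_iUnion.2 ⟨some y, hy⟩
  have href := fun n => precise_refinement_set (hE n) u huo (hcov n)
  choose v hvo hvc hvf hvu using href
  have hmem : ∀ x, ξ x ∈ v (ν x) (some x) := by
    intro x
    obtain ⟨i, hi⟩ := Set.mem_iUnion.1 (hvc (ν x) (hν x))
    have h1 := hvu (ν x) i hi
    cases i with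
    | none =>
      have h2 : f (ξ x) ∈ O := h1
      rw [hfξ] at h2
      exact absurd h2 (heO x)
    | some y =>
      have h2 : f (ξ x) ∈ N (y :: s) := h1
      rw [hfξ, nd_mem_N] at h2
      have h3 : y :: s = x :: s := h2.eq_of_length (by simp)
      rw [List.cons.injEq] at h3
      rw [← h3.1]
      exact h3.1 ▸ hi
  have hm : ∀ x, ∃ m, Pt.iso p s hs m ∈ f '' (v (ν x) (some x)) := by
    intro x
    apply exists_iso p s hs x _ (hopen _ (hvo _ _))
    exact ⟨ξ x, hmem x, hfξ x⟩
  choose μ hμ using hm
  obtain ⟨⟨n, m⟩, hnm⟩ : ∃ c : ℕ × List Bool, {x : I | (ν x, μ x) = c}.Infinite := by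
    by_contra hc
    push Not at hc
    have : (Set.univ : Set I).Countable := by
      have h1 : (Set.univ : Set I) = ⋃ c : ℕ × List Bool, {x : I | (ν x, μ x) = c} := by
        ext x
        simp
      rw [h1]
      exact Set.countable_iUnion fun c => (hc c).countable
    have h2 := uncountable_I
    exact Set.not_countable_univ this
  have hfin := (hvf n).finite_nonempty_inter_compact (hcpt (Pt.iso p s hs m))
  apply hnm
  have : Set.InjOn (some : I → Option I) {x : I | (ν x, μ x) = (n, m)} :=
    (Option.some_injective I).injOn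
  apply Set.Finite.of_finite_image _ this
  apply hfin.subset
  rintro _ ⟨x, hx, rfl⟩
  rw [Set.mem_ofPred_eq, Prod.mk.injEq] at hx
  obtain ⟨h1, h2⟩ := hx
  obtain ⟨w, hw, hfw⟩ := hμ x
  rw [h1] at hw
  rw [h2] at hfw
  exact ⟨w, hw, hfw⟩

/-- The set of branch points is closed. -/
lemma isClosed_br : IsClosed (Set.range Pt.br) := by
  rw [← isOpen_compl_iff]
  have : (Set.range Pt.br)ᶜ = ⋃ p : Tr, K p := by
    ext z
    simp only [Set.mem_compl_iff, Set.mem_range, Set.mem_iUnion]
    constructor
    · intro h
      cases z with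
      | br a => exact absurd ⟨a, rfl⟩ h
      | nd q u hu => exact ⟨q, rfl⟩
      | iso q u hu m => exact ⟨q, rfl⟩
    · rintro ⟨p, hp⟩ ⟨a, rfl⟩
      exact hp
  rw [this]
  exact isOpen_iUnion fun p => (K_clopen p).isOpen

/-- The set of root nodes is closed. -/
lemma isClosed_roots : IsClosed {z : Pt | ∃ p, z = Pt.nd p [] (Or.inl rfl)} := by
  rw [← isOpen_compl_iff]
  have : {z : Pt | ∃ p, z = Pt.nd p [] (Or.inl rfl)}ᶜ =
      (⋃ x : I, N [x]) ∪ {z : Pt | ∃ p s h m, z = Pt.iso p s h m} := by
    ext z
    simp only [Set.mem_compl_iff, Set.mem_ofPred_eq, Set.mem_union, Set.mem_iUnion]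
    constructor
    · intro h
      cases z with
      | br a =>
        left
        refine ⟨a 0, ?_⟩
        rw [br_mem_N]
        rfl
      | nd q u hu =>
        left
        rcases List.eq_nil_or_concat u with rfl | ⟨l', y, rfl⟩
        · exact absurd ⟨q, rfl⟩ h
        · refine ⟨y, ?_⟩
          rw [nd_mem_N]
          exact ⟨l', by simp⟩
      | iso q u hu m => exact Or.inr ⟨q, u, hu, m, rfl⟩
    · rintro (⟨x, hx⟩ | ⟨q, u, hu, m, rfl⟩) ⟨p, hp⟩
      · rw [hp, nd_mem_N] at hx
        simp at hx
      · exact absurd hp (by simp)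
  rw [this]
  exact (isOpen_iUnion fun x => (N_clopen _).isOpen).union isOpen_isos

/-- The space `Pt` is not an open image with compact fibres of a paracompact Hausdorff space. -/
lemma not_image {X : Type*} [TopologicalSpace X] [T2Space X] [ParacompactSpace X] (f : X → Pt)
    (hf : Continuous f) (hsurj : Function.Surjective f) (hopen : IsOpenMap f)
    (hcpt : ∀ y, IsCompact (f ⁻¹' {y})) : False := by
  have hd : Disjoint (f ⁻¹' (Set.range Pt.br))
      (f ⁻¹' {z : Pt | ∃ p, z = Pt.nd p [] (Or.inl rfl)}) := by
    rw [Set.disjoint_left]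
    rintro x ⟨a, ha⟩ ⟨p, hp⟩
    rw [hp] at ha
    exact absurd ha (by simp)
  obtain ⟨g, hg0, hg1, -⟩ := exists_continuous_zero_one_of_isClosed
    (isClosed_br.preimage hf) (isClosed_roots.preimage hf) hd
  let E : ℕ → Set X := fun n => {x | g x ≤ 1 - 1 / ((n : ℝ) + 1)}
  have hE : ∀ n, IsClosed (E n) := fun n => isClosed_le g.continuous continuous_const
  have hG : (⋃ n, E n) = {x | g x < 1} := by
    ext x
    simp only [Set.mem_iUnion, Set.mem_ofPred_eq, E]
    constructor
    · rintro ⟨n, hn⟩
      have : (0 : ℝ) < 1 / ((n : ℝ) + 1) := by positivity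
      linarith
    · intro h
      obtain ⟨n, hn⟩ := exists_nat_one_div_lt (show (0 : ℝ) < 1 - g x by linarith)
      exact ⟨n, by linarith⟩
  have hGo : IsOpen (⋃ n, E n) := by
    rw [hG]
    exact isOpen_lt g.continuous continuous_const
  have hW : IsOpen (f '' (⋃ n, E n)) := hopen _ hGo
  have hbr : ∀ a, Pt.br a ∈ f '' (⋃ n, E n) := by
    intro a
    obtain ⟨x, hx⟩ := hsurj (Pt.br a)
    refine ⟨x, ?_, hx⟩
    rw [hG]
    have : g x = 0 := hg0 (show x ∈ f ⁻¹' (Set.range Pt.br) from ⟨a, hx.symm⟩)
    rw [Set.mem_ofPred_eq, this]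
    norm_num
  have hroot : ∀ p, Pt.nd p [] (Or.inl rfl) ∉ f '' (⋃ n, E n) := by
    rintro p ⟨x, hx, hfx⟩
    rw [hG] at hx
    have : g x = 1 := hg1 (show x ∈ f ⁻¹' {z : Pt | ∃ p, z = Pt.nd p [] (Or.inl rfl)} from
      ⟨p, hfx⟩)
    rw [Set.mem_ofPred_eq, this] at hx
    exact lt_irrefl _ hx
  let p : Tr :=
    { c := {t | ¬ N t ⊆ f '' (⋃ n, E n)}
      down := fun x s h h' => h ((N_anti (List.suffix_cons x s)).trans h')
      wf := by
        intro a
        obtain ⟨k, hk⟩ := nhd_br _ hW a (hbr a)
        exact ⟨k, fun h => h hk⟩ }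
  have := p.bar (fun s => ∀ h : s = [] ∨ s.tail ∈ p.c, Pt.nd p s h ∈ f '' (⋃ n, E n)) ?_ ?_
  · exact hroot p (this (Or.inl rfl))
  · intro s hs h
    have : N s ⊆ f '' (⋃ n, E n) := by
      by_contra hc
      exact hs hc
    exact this (List.suffix_refl s)
  · intro s hs ih h
    exact step f hf hopen hcpt E hE p s hs h fun x => ih x (Or.inr hs)

/-- There is a completely regular Hausdorff metacompact space which is not the image of any
paracompact Hausdorff space under an open continuous surjection with compact fibres. -/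
theorem result : ∃ (Y : Type) (_ : TopologicalSpace Y), T35Space Y ∧ Metacompact Y ∧
    ∀ (X : Type*) [TopologicalSpace X] [T2Space X] [ParacompactSpace X] (f : X → Y),
      Continuous f → Function.Surjective f → IsOpenMap f → (∀ y, IsCompact (f ⁻¹' {y})) →
        False :=
  ⟨Pt, inferInstance, inferInstance, metacompact_Pt,
    fun _ _ _ _ f hf hs ho hc => not_image f hf hs ho hc⟩

end Pool.Agent.Results.MP_a57f84_gt.NotOpenCompactImage
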